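import Pool.Agent.Helper67.KPG.St2

/-!
# Project KP, chapter G, module GRD: existence of the grading
-/

set_option autoImplicit false
set_option linter.unusedSectionVars false

namespace Pool.Agent.Helper36.KPG

open Pool.Agent.Helper67.NO Pool.Agent.Helper52.KP Pool.Agent.Helper67.KPG

universe u

section

variable {V : Type u} [AddCommGroup V] [Module ℂ V] [FiniteDimensional ℂ V]

/-- `H A^n = A^n (H + c n)` on vectors -/
theorem grd_pow (A H : Module.End ℂ V) (c : ℂ) (h : H * A - A * H = c • A) (n : ℕ) (x : V) (μ : ℂ)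
    (hx : H x = μ • x) : H ((A ^ n) x) = (μ + c * n) • (A ^ n) x := by
  induction n with
  | zero => simpa using hx
  | succ n ih =>
    have h1 : H * A = A * H + c • A := by rw [← h]; abel
    have h2 : H (A ((A ^ n) x)) = A (H ((A ^ n) x)) + c • A ((A ^ n) x) := by
      have := congrArg (fun T : Module.End ℂ V => T ((A ^ n) x)) h1
      simpa using this
    rw [pow_succ']
    show H (A ((A ^ n) x)) = _ • A ((A ^ n) x)
    rw [h2, ih, map_smul, ← add_smul]
    congr 1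
    push_cast
    ring

theorem grd_int (H : Module.End ℂ V) (hE : (⨆ j : ℤ, H.eigenspace (j : ℂ)) = ⊤) :
    ∃ (N : ℕ) (pr : ℤ → V →ₗ[ℂ] V), (∀ (j : ℤ) x, H (pr j x) = (j : ℂ) • pr j x) ∧
      (∀ (j : ℤ) x, H x = (j : ℂ) • x → pr j x = x) ∧
      (∀ i j : ℤ, i ≠ j → ∀ x, pr i (pr j x) = 0) ∧
      (∀ x, ∑ j ∈ Finset.Icc (-(N : ℤ)) N, pr j x = x) ∧
      (∀ j : ℤ, (N : ℤ) < |j| → pr j = 0) := by
  classical
  set E : ℤ → Submodule ℂ V := fun j => H.eigenspace (j : ℂ) with hEd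
  have hind : iSupIndep E := (H.eigenspaces_iSupIndep).comp Int.cast_injective
  have hmem : ∀ (j : ℤ) x, x ∈ E j ↔ H x = (j : ℂ) • x := fun j x =>
    Module.End.mem_eigenspace_iff
  have hcompl : ∀ j, IsCompl (E j) (⨆ (i : ℤ) (_ : i ≠ j), E i) := by
    intro j
    refine ⟨hind j, codisjoint_iff.2 ?_⟩
    rw [eq_top_iff, ← hE]
    refine iSup_le fun i => ?_
    by_cases hij : i = j
    · rw [hij]
      exact le_sup_left
    · exact (le_iSup₂_of_le (f := fun (i : ℤ) (_ : i ≠ j) => E i) i hij le_rfl).trans le_sup_right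
  set pr : ℤ → V →ₗ[ℂ] V := fun j => (E j).projection _ (hcompl j) with hpr
  have hprE : ∀ j x, pr j x ∈ E j := fun j x => Submodule.projection_apply_mem (hcompl j) x
  have hfix : ∀ j x, x ∈ E j → pr j x = x := fun j x hx =>
    Submodule.projection_apply_of_mem_left (hcompl j) hx
  have horth : ∀ i j, i ≠ j → ∀ x ∈ E j, pr i x = 0 := by
    intro i j hij x hx
    refine (Submodule.projection_apply_eq_zero_iff (hcompl i)).2 ?_
    exact Submodule.mem_iSup_of_mem j (Submodule.mem_iSup_of_mem hij.symm hx)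
  have hfin : {j | E j ≠ ⊥}.Finite := WellFoundedGT.finite_ne_bot_of_iSupIndep hind
  obtain ⟨N, hN⟩ : ∃ N : ℕ, ∀ j, E j ≠ ⊥ → |j| ≤ N := by
    refine ⟨hfin.toFinset.sup Int.natAbs, fun j hj => ?_⟩
    have h1 : j.natAbs ≤ hfin.toFinset.sup Int.natAbs :=
      Finset.le_sup (f := Int.natAbs) (hfin.mem_toFinset.2 hj)
    rw [Int.abs_eq_natAbs]
    exact_mod_cast h1
  have hbot : ∀ j : ℤ, (N : ℤ) < |j| → E j = ⊥ := by
    intro j hj
    by_contra h
    exact absurd (hN j h) (not_le.2 hj)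
  refine ⟨N, pr, fun j x => (hmem j _).1 (hprE j x), fun j x hx => hfix j x ((hmem j x).2 hx),
    fun i j hij x => horth i j hij _ (hprE j x), fun x => ?_, fun j hj => ?_⟩
  · have hx : x ∈ ⨆ j, E j := by
      rw [show (⨆ j, E j) = ⊤ from hE]
      trivial
    refine Submodule.iSup_induction E (motive := fun x =>
      ∑ j ∈ Finset.Icc (-(N : ℤ)) N, pr j x = x) hx ?_ ?_ ?_
    · intro i y hy
      by_cases hi : |i| ≤ N
      · rw [Finset.sum_eq_single i]
        · exact hfix i y hy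
        · intro j _ hji
          exact horth j i hji y hy
        · intro hni
          exact absurd (Finset.mem_Icc.2 (abs_le.1 hi)) hni
      · have h1 := hbot i (not_le.1 hi)
        rw [h1, Submodule.mem_bot] at hy
        rw [hy]
        simp
    · simp
    · intro y z hy hz
      simp only [map_add, Finset.sum_add_distrib]
      rw [hy, hz]
  · ext x
    have h1 := hprE j x
    rw [hbot j hj, Submodule.mem_bot] at h1
    rw [h1]
    rfl

theorem grd_inj_surj (A B H : Module.End ℂ V) (hA : H * A - A * H = (2 : ℂ) • A)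
    (hB : H * B - B * H = -((2 : ℂ) • B))
    (h2 : ∀ (j : ℕ) v, H v = -((j : ℂ) • v) → (A ^ j) v = 0 → v = 0)
    (h3 : ∀ (j : ℕ) v, H v = (j : ℂ) • v → (B ^ j) v = 0 → v = 0) (j : ℕ) (y : V)
    (hy : H y = (j : ℂ) • y) : ∃ x, H x = -((j : ℂ) • x) ∧ (A ^ j) x = y := by
  have mP : ∀ x, x ∈ H.eigenspace (j : ℂ) ↔ H x = (j : ℂ) • x := fun x =>
    Module.End.mem_eigenspace_iff
  have mM : ∀ x, x ∈ H.eigenspace (-(j : ℂ)) ↔ H x = -((j : ℂ) • x) := fun x => by
    rw [Module.End.mem_eigenspace_iff, neg_smul]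
  have hAm : ∀ x ∈ H.eigenspace (-(j : ℂ)), (A ^ j) x ∈ H.eigenspace (j : ℂ) := by
    intro x hx
    rw [mP, grd_pow A H 2 hA j x (-(j : ℂ)) (Module.End.mem_eigenspace_iff.1 hx)]
    congr 1
    ring
  have hBm : ∀ x ∈ H.eigenspace (j : ℂ), (B ^ j) x ∈ H.eigenspace (-(j : ℂ)) := by
    intro x hx
    rw [Module.End.mem_eigenspace_iff, grd_pow B H (-2) (by rw [hB, neg_smul]) j x (j : ℂ)
      (Module.End.mem_eigenspace_iff.1 hx)]
    congr 1
    ring
  let fA : H.eigenspace (-(j : ℂ)) →ₗ[ℂ] H.eigenspace (j : ℂ) := (A ^ j).restrict hAm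
  let fB : H.eigenspace (j : ℂ) →ₗ[ℂ] H.eigenspace (-(j : ℂ)) := (B ^ j).restrict hBm
  have iA : Function.Injective fA := by
    rw [← LinearMap.ker_eq_bot, LinearMap.ker_eq_bot']
    intro x hx
    have h4 : (A ^ j) (x : V) = 0 := congrArg Subtype.val hx
    exact Subtype.ext (h2 j x ((mM _).1 x.2) h4)
  have iB : Function.Injective fB := by
    rw [← LinearMap.ker_eq_bot, LinearMap.ker_eq_bot']
    intro x hx
    have h4 : (B ^ j) (x : V) = 0 := congrArg Subtype.val hx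
    exact Subtype.ext (h3 j x ((mP _).1 x.2) h4)
  have hdim : Module.finrank ℂ (H.eigenspace (-(j : ℂ))) = Module.finrank ℂ (H.eigenspace (j : ℂ)) :=
    le_antisymm (LinearMap.finrank_le_finrank_of_injective iA)
      (LinearMap.finrank_le_finrank_of_injective iB)
  obtain ⟨x, hx⟩ := (LinearMap.injective_iff_surjective_of_finrank_eq_finrank hdim).1 iA
    ⟨y, (mP y).2 hy⟩
  exact ⟨x, (mM _).1 x.2, congrArg Subtype.val hx⟩

end

theorem hGRD (hJM : StJM.{u}) (hSLT : StSLT.{u}) : StGRD.{u} := by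
  intro g _ _ _ _ e he hnil
  obtain ⟨h, f, ht⟩ := hJM g e he hnil
  set A : Module.End ℂ g := LieAlgebra.ad ℂ g e with hA
  set B : Module.End ℂ g := LieAlgebra.ad ℂ g f with hB
  set H : Module.End ℂ g := LieAlgebra.ad ℂ g h with hH
  have hHx : ∀ x, H x = ⁅h, x⁆ := fun x => rfl
  have r1 : H * A - A * H = (2 : ℂ) • A := by
    ext x
    show ⁅h, ⁅e, x⁆⁆ - ⁅e, ⁅h, x⁆⁆ = (2 : ℂ) • ⁅e, x⁆
    rw [← lie_lie, ht.lie_h_e_nsmul, two_nsmul, add_lie, two_smul]
  have r2 : H * B - B * H = -((2 : ℂ) • B) := by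
    ext x
    show ⁅h, ⁅f, x⁆⁆ - ⁅f, ⁅h, x⁆⁆ = -((2 : ℂ) • ⁅f, x⁆)
    rw [← lie_lie, ht.lie_h_f_nsmul, two_nsmul, neg_lie, add_lie, two_smul]
  have r3 : A * B - B * A = H := by
    ext x
    show ⁅e, ⁅f, x⁆⁆ - ⁅f, ⁅e, x⁆⁆ = ⁅h, x⁆
    rw [← lie_lie, ht.lie_e_f]
  obtain ⟨s1, s2, s3⟩ := hSLT g A B H r1 r2 r3
  obtain ⟨N, pr, p1, p2, p3, p4, p5⟩ := grd_int H s1
  refine ⟨h, f, N, pr, ht, hnil, p1, p2, p3, p4, p5, ?_, ?_⟩
  · intro j x hx h0
    refine s2 j x ?_ h0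
    have h1 := p1 (-(j : ℤ)) x
    rw [hx] at h1
    rw [h1]
    push_cast
    rw [neg_smul]
  · intro j y hy
    have h1 := p1 (j : ℤ) y
    rw [hy] at h1
    obtain ⟨x, hx, hxy⟩ := grd_inj_surj A B H r1 r2 s2 s3 j y (by rw [h1]; push_cast; rfl)
    refine ⟨x, p2 (-(j : ℤ)) x ?_, hxy⟩
    rw [hx]
    push_cast
    rw [neg_smul]

end Pool.Agent.Helper36.KPG
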